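import Pool.Agent.N461.Ball.Data

/-!
# MP_377e48_co: the numerical facts, checked by the kernel
-/

set_option autoImplicit false

namespace Pool.Agent.N461.Ball

/-- The two ends of an edge. -/
def ed (e : Fin 46) : Fin 14 × Fin 14 := edL.getD e.val (0, 0)

/-- Adjacency. -/
def adj (i j : Fin 14) : Prop := (i, j) ∈ edL ∨ (j, i) ∈ edL

instance (i j : Fin 14) : Decidable (adj i j) := by unfold adj; infer_instance

/-- Approximate centres and radii, unit `10^(-12)`. -/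
def Pz (i : Fin 14) (k : Fin 5) : ℤ := (PL.getD i.val []).getD k.val 0

/-- Approximate right inverse, unit `10^(-4)`. -/
def Az (i : Fin 14) (k : Fin 5) (l : Fin 46) : ℤ :=
  (((AL.getD (5 * i.val + k.val) 0 / 10 ^ (5 * l.val)) % 100000 : ℕ) : ℤ) - 50000

/-- Approximate left inverse of the stress matrix, unit `10^(-3)`. -/
def Lz (e : Fin 46) (j : Fin 14) (k : Fin 4) : ℤ :=
  (((LL.getD e.val 0 / 10 ^ (5 * (4 * j.val + k.val))) % 100000 : ℕ) : ℤ) - 50000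

/-- The sign of the `k`-th square, and of the second end of an edge. -/
def sg (k : Fin 5) : ℤ := if k = 4 then -1 else 1

/-- difference of the coordinates (`k < 4`), sum of the radii (`k = 4`) -/
def az (e : Fin 46) (k : Fin 5) : ℤ := Pz (ed e).1 k - sg k * Pz (ed e).2 k

/-- the same for the right inverse -/
def Bz (e : Fin 46) (k : Fin 5) (l : Fin 46) : ℤ := Az (ed e).1 k l - sg k * Az (ed e).2 k l

theorem check_F : ∀ e : Fin 46, |∑ k : Fin 5, sg k * az e k ^ 2| ≤ 50000000000000 := by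
  decide +kernel

theorem check_B : ∀ e : Fin 46, ∀ k : Fin 5, ∑ l : Fin 46, |Bz e k l| ≤ 110000 := by
  decide +kernel

theorem check_K : ∀ e : Fin 46, ∑ l : Fin 46,
    |(if l = e then 10000000000000000 else 0) - 2 * ∑ k : Fin 5, sg k * az e k * Bz e k l| ≤
      2500000000000000 := by
  decide +kernel

theorem check_N : ∀ i j : Fin 14, i ≠ j → ¬ adj i j →
    5000000000000000000000 ≤ (Pz i 4 + Pz j 4) ^ 2 - ∑ k : Fin 4, (Pz i k.castSucc - Pz j k.castSucc) ^ 2 := by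
  decide +kernel

theorem check_bd : ∀ i : Fin 14, ∀ k : Fin 5, |Pz i k| ≤ 6000000000000 := by
  decide +kernel

theorem check_pos : ∀ i : Fin 14, 200000000000 ≤ Pz i 4 := by
  decide +kernel

theorem check_L : ∀ e : Fin 46, ∀ j : Fin 14, ∀ k : Fin 4, |Lz e j k| ≤ 20000 := by
  decide +kernel

/-- the approximate product of the left inverse and of the stress matrix -/
def Mz (e f : Fin 46) : ℤ :=
  ∑ k : Fin 4, (Lz e (ed f).2 k - Lz e (ed f).1 k) *
    (Pz (ed f).1 k.castSucc - Pz (ed f).2 k.castSucc)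

theorem check_M : ∀ e : Fin 46, 2 * (∑ f : Fin 46, if f = e then 0 else |Mz e f|) < Mz e e ∧
    900000000000000 ≤ Mz e e := by
  decide +kernel

theorem check_A : ∀ i : Fin 14, ∀ k : Fin 5, ∑ l : Fin 46, |Az i k l| ≤ 60000 := by
  decide +kernel

theorem check_inj : ∀ i j : Fin 14, i ≠ j → ∃ k : Fin 4,
    1000000000 ≤ |Pz i k.castSucc - Pz j k.castSucc| := by
  decide +kernel

theorem adj_filter : (Finset.univ : Finset (Fin 14 × Fin 14)).filter (fun p => adj p.1 p.2) =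
    (Finset.univ : Finset (Fin 46)).image ed ∪
      (Finset.univ : Finset (Fin 46)).image (fun e => ((ed e).2, (ed e).1)) := by
  decide +kernel

theorem ed_inj : ∀ e f : Fin 46, ed e = ed f → e = f := by decide +kernel

theorem ed_lt : ∀ e : Fin 46, (ed e).1 < (ed e).2 := by decide +kernel

theorem adj_ed : ∀ i j : Fin 14, adj i j → ∃ e : Fin 46, ed e = (i, j) ∨ ed e = (j, i) := by
  decide +kernel

theorem ed_adj : ∀ e : Fin 46, adj (ed e).1 (ed e).2 := by decide +kernel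

theorem adj_symm (i j : Fin 14) (h : adj i j) : adj j i := h.symm

theorem adj_ne : ∀ i j : Fin 14, adj i j → i ≠ j := by decide +kernel

set_option synthInstance.maxHeartbeats 400000 in
set_option synthInstance.maxSize 10000 in
set_option maxRecDepth 10000 in
theorem col_check : ∀ a3 a4 : Fin 5, a3 ≠ a4 → ∀ a2 : Fin 5, a2 ≠ a3 → a2 ≠ a4 →
    ∀ a0 : Fin 5, a0 ≠ a2 → a0 ≠ a3 → a0 ≠ a4 →
    ∀ a1 : Fin 5, a0 ≠ a1 → a1 ≠ a2 → a1 ≠ a3 → a1 ≠ a4 →
    ∀ a8 : Fin 5, a0 ≠ a8 → a2 ≠ a8 → a3 ≠ a8 → a4 ≠ a8 →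
    ∀ a7 : Fin 5, a2 ≠ a7 → a3 ≠ a7 → a4 ≠ a7 → a7 ≠ a8 →
    ∀ a9 : Fin 5, a2 ≠ a9 → a3 ≠ a9 → a4 ≠ a9 → a7 ≠ a9 →
    ∀ a10 : Fin 5, a1 ≠ a10 → a3 ≠ a10 → a4 ≠ a10 → a7 ≠ a10 →
    ∀ a13 : Fin 5, a0 ≠ a13 → a3 ≠ a13 → a9 ≠ a13 → a10 ≠ a13 →
    ∀ a11 : Fin 5, a3 ≠ a11 → a4 ≠ a11 → a9 ≠ a11 → a10 ≠ a11 →
    ∀ a12 : Fin 5, a2 ≠ a12 → a11 ≠ a12 → a12 ≠ a13 →
    ∀ a6 : Fin 5, a0 ≠ a6 → a2 ≠ a6 → a4 ≠ a6 → a6 ≠ a12 →
    ∀ a5 : Fin 5, a0 ≠ a5 → a4 ≠ a5 → a5 ≠ a6 → a5 ≠ a10 → a5 ≠ a12 → False := by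
  decide +kernel

theorem not_col (f : Fin 14 → Fin 5) (h : ∀ i j, adj i j → f i ≠ f j) : False := by
  have g : ∀ i j : Fin 14, (i, j) ∈ edL → f i ≠ f j := fun i j hij => h i j (Or.inl hij)
  refine col_check (f 3) (f 4) (g 3 4 (by decide)) (f 2) (g 2 3 (by decide)) (g 2 4 (by decide))
    (f 0) (g 0 2 (by decide)) (g 0 3 (by decide)) (g 0 4 (by decide))
    (f 1) (g 0 1 (by decide)) (g 1 2 (by decide)) (g 1 3 (by decide)) (g 1 4 (by decide))
    (f 8) (g 0 8 (by decide)) (g 2 8 (by decide)) (g 3 8 (by decide)) (g 4 8 (by decide))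
    (f 7) (g 2 7 (by decide)) (g 3 7 (by decide)) (g 4 7 (by decide)) (g 7 8 (by decide))
    (f 9) (g 2 9 (by decide)) (g 3 9 (by decide)) (g 4 9 (by decide)) (g 7 9 (by decide))
    (f 10) (g 1 10 (by decide)) (g 3 10 (by decide)) (g 4 10 (by decide)) (g 7 10 (by decide))
    (f 13) (g 0 13 (by decide)) (g 3 13 (by decide)) (g 9 13 (by decide)) (g 10 13 (by decide))
    (f 11) (g 3 11 (by decide)) (g 4 11 (by decide)) (g 9 11 (by decide)) (g 10 11 (by decide))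
    (f 12) (g 2 12 (by decide)) (g 11 12 (by decide)) (g 12 13 (by decide))
    (f 6) (g 0 6 (by decide)) (g 2 6 (by decide)) (g 4 6 (by decide)) (g 6 12 (by decide))
    (f 5) (g 0 5 (by decide)) (g 4 5 (by decide)) (g 5 6 (by decide)) (g 5 10 (by decide))
    (g 5 12 (by decide))

end Pool.Agent.N461.Ball
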