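import Mathlib

/-!
# A quantitative existence theorem for systems of sums of signed squares

If `z ↦ ∑ k, σ k (a e k + B e k ⬝ z)²` is small at `0` for all `e` and has derivative close to
the identity there, then all these functions have a common zero close to `0`.
-/

set_option autoImplicit false

namespace Pool.Agent.N461.Ball

open Finset

variable {m : ℕ}

/-- The map whose fixed points are the zeros. -/
noncomputable def step (σ : Fin 5 → ℝ) (a : Fin m → Fin 5 → ℝ) (B : Fin m → Fin 5 → Fin m → ℝ)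
    (z : Fin m → ℝ) : Fin m → ℝ :=
  fun e => z e - ∑ k, σ k * (a e k + ∑ l, B e k l * z l) ^ 2

theorem abs_dot_le {m : ℕ} (c z : Fin m → ℝ) (b ρ : ℝ) (hb : ∑ l, |c l| ≤ b) (hρ : 0 ≤ ρ)
    (hz : ∀ l, |z l| ≤ ρ) : |∑ l, c l * z l| ≤ b * ρ := by
  calc |∑ l, c l * z l| ≤ ∑ l, |c l * z l| := Finset.abs_sum_le_sum_abs _ _
    _ = ∑ l, |c l| * |z l| := by simp [abs_mul]
    _ ≤ ∑ l, |c l| * ρ := by gcongr with l _; exact hz l
    _ = (∑ l, |c l|) * ρ := by rw [Finset.sum_mul]
    _ ≤ b * ρ := by gcongr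

theorem step_sub (σ : Fin 5 → ℝ) (a : Fin m → Fin 5 → ℝ) (B : Fin m → Fin 5 → Fin m → ℝ)
    (z z' : Fin m → ℝ) (e : Fin m) :
    step σ a B z e - step σ a B z' e =
      ∑ l, ((if l = e then 1 else 0) - 2 * ∑ k, σ k * a e k * B e k l) * (z l - z' l) -
      ∑ k, σ k * ((∑ l, B e k l * (z l - z' l)) * (∑ l, B e k l * (z l + z' l))) := by
  have h1 : ∑ l, ((if l = e then (1:ℝ) else 0) - 2 * ∑ k, σ k * a e k * B e k l) * (z l - z' l) =
      (z e - z' e) - ∑ k, σ k * (2 * a e k * ∑ l, B e k l * (z l - z' l)) := by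
    have : ∀ l, ((if l = e then (1:ℝ) else 0) - 2 * ∑ k, σ k * a e k * B e k l) * (z l - z' l) =
        (if l = e then (z l - z' l) else 0) - ∑ k, σ k * (2 * a e k * (B e k l * (z l - z' l))) := by
      intro l
      rw [sub_mul, Finset.mul_sum, Finset.sum_mul]
      congr 1
      · split_ifs <;> simp
      · apply Finset.sum_congr rfl
        intro k _
        ring
    simp_rw [this]
    rw [Finset.sum_sub_distrib, Finset.sum_ite_eq' Finset.univ e]
    simp only [Finset.mem_univ, if_true]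
    congr 1
    rw [Finset.sum_comm]
    apply Finset.sum_congr rfl
    intro k _
    rw [← Finset.mul_sum, ← Finset.mul_sum]
  rw [h1]
  unfold step
  have h2 : ∀ k, ∑ l, B e k l * (z l - z' l) = (∑ l, B e k l * z l) - ∑ l, B e k l * z' l := by
    intro k
    rw [← Finset.sum_sub_distrib]
    apply Finset.sum_congr rfl
    intro l _
    ring
  have h3 : ∀ k, ∑ l, B e k l * (z l + z' l) = (∑ l, B e k l * z l) + ∑ l, B e k l * z' l := by
    intro k
    rw [← Finset.sum_add_distrib]
    apply Finset.sum_congr rfl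
    intro l _
    ring
  simp_rw [h2, h3]
  have h4 : ∀ k, σ k * (a e k + ∑ l, B e k l * z l) ^ 2 = σ k * (a e k + ∑ l, B e k l * z' l) ^ 2 +
      (σ k * (2 * a e k * ((∑ l, B e k l * z l) - ∑ l, B e k l * z' l)) +
        σ k * (((∑ l, B e k l * z l) - ∑ l, B e k l * z' l) *
          ((∑ l, B e k l * z l) + ∑ l, B e k l * z' l))) := by
    intro k
    ring
  rw [Finset.sum_congr rfl (fun k _ => h4 k), Finset.sum_add_distrib, Finset.sum_add_distrib]
  ring

theorem newton (σ : Fin 5 → ℝ) (a : Fin m → Fin 5 → ℝ) (B : Fin m → Fin 5 → Fin m → ℝ)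
    (hσ : ∀ k, |σ k| = 1) (r b : ℝ) (hr : 0 < r) (hb0 : 0 ≤ b)
    (h0 : ∀ e, |∑ k, σ k * a e k ^ 2| ≤ r / 2)
    (h1 : ∀ e, ∑ l, |(if l = e then 1 else 0) - 2 * ∑ k, σ k * a e k * B e k l| ≤ 1 / 4)
    (hb : ∀ e k, ∑ l, |B e k l| ≤ b) (hbr : 10 * b ^ 2 * r ≤ 1 / 4) :
    ∃ z : Fin m → ℝ, (∀ l, |z l| ≤ r) ∧ ∀ e, ∑ k, σ k * (a e k + ∑ l, B e k l * z l) ^ 2 = 0 := by
  have hlip : ∀ z ∈ Metric.closedBall (0 : Fin m → ℝ) r, ∀ z' ∈ Metric.closedBall (0 : Fin m → ℝ) r,
      dist (step σ a B z) (step σ a B z') ≤ 1 / 2 * dist z z' := by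
    intro z hz z' hz'
    rw [mem_closedBall_zero_iff, pi_norm_le_iff_of_nonneg hr.le] at hz hz'
    rw [dist_pi_le_iff (by positivity)]
    intro e
    rw [Real.dist_eq, step_sub]
    have hd : ∀ l, |z l - z' l| ≤ dist z z' := by
      intro l
      rw [← Real.dist_eq]
      exact dist_le_pi_dist z z' l
    have hs : ∀ l, |z l + z' l| ≤ 2 * r := by
      intro l
      have e1 := hz l
      have e2 := hz' l
      rw [Real.norm_eq_abs] at e1 e2
      exact (abs_add_le _ _).trans (by linarith)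
    have hdn : 0 ≤ dist z z' := dist_nonneg
    have e1 := abs_dot_le (fun l => (if l = e then (1:ℝ) else 0) - 2 * ∑ k, σ k * a e k * B e k l)
      (fun l => z l - z' l) (1 / 4) (dist z z') (h1 e) hdn hd
    have e2 : |∑ k, σ k * ((∑ l, B e k l * (z l - z' l)) * (∑ l, B e k l * (z l + z' l)))| ≤
        5 * ((b * dist z z') * (b * (2 * r))) := by
      calc |∑ k, σ k * ((∑ l, B e k l * (z l - z' l)) * (∑ l, B e k l * (z l + z' l)))|
          ≤ ∑ k, |σ k * ((∑ l, B e k l * (z l - z' l)) * (∑ l, B e k l * (z l + z' l)))| :=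
            Finset.abs_sum_le_sum_abs _ _
        _ ≤ ∑ k : Fin 5, (b * dist z z') * (b * (2 * r)) := by
            apply Finset.sum_le_sum
            intro k _
            rw [abs_mul, hσ, one_mul, abs_mul]
            have f1 := abs_dot_le (B e k) (fun l => z l - z' l) b (dist z z') (hb e k) hdn hd
            have f2 := abs_dot_le (B e k) (fun l => z l + z' l) b (2 * r) (hb e k) (by positivity) hs
            exact mul_le_mul f1 f2 (abs_nonneg _) (by positivity)
        _ = 5 * ((b * dist z z') * (b * (2 * r))) := by simp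
    calc _ ≤ |∑ l, ((if l = e then 1 else 0) - 2 * ∑ k, σ k * a e k * B e k l) * (z l - z' l)| +
          |∑ k, σ k * ((∑ l, B e k l * (z l - z' l)) * (∑ l, B e k l * (z l + z' l)))| :=
          abs_sub _ _
      _ ≤ 1 / 4 * dist z z' + 5 * ((b * dist z z') * (b * (2 * r))) := add_le_add e1 e2
      _ = (1 / 4 + 10 * b ^ 2 * r) * dist z z' := by ring
      _ ≤ 1 / 2 * dist z z' := by
          apply mul_le_mul_of_nonneg_right _ hdn
          linarith
  have h00 : dist (step σ a B 0) 0 ≤ r / 2 := by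
    rw [dist_pi_le_iff (by positivity)]
    intro e
    rw [Real.dist_eq]
    unfold step
    simpa using h0 e
  have hmaps : Set.MapsTo (step σ a B) (Metric.closedBall 0 r) (Metric.closedBall 0 r) := by
    intro z hz
    have h2 := hlip z hz 0 (Metric.mem_closedBall_self hr.le)
    have h3 : dist z 0 ≤ r := hz
    rw [Metric.mem_closedBall]
    calc dist (step σ a B z) 0 ≤ dist (step σ a B z) (step σ a B 0) + dist (step σ a B 0) 0 :=
          dist_triangle _ _ _
      _ ≤ 1 / 2 * r + r / 2 := by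
          apply add_le_add _ h00
          exact h2.trans (by linarith)
      _ = r := by ring
  have hcomplete : IsComplete (Metric.closedBall (0 : Fin m → ℝ) r) :=
    Metric.isClosed_closedBall.isComplete
  have hcontr : ContractingWith (1 / 2) (hmaps.restrict (step σ a B) _ _) := by
    refine ⟨by
      rw [← NNReal.coe_lt_coe]
      norm_num, ?_⟩
    apply LipschitzWith.of_dist_le_mul
    intro z z'
    have h5 := hlip z.1 z.2 z'.1 z'.2
    have h6 : ((1 / 2 : NNReal) : ℝ) = 1 / 2 := by norm_num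
    rw [h6]
    exact h5
  obtain ⟨z, hz, hfix, -⟩ := ContractingWith.exists_fixedPoint' hcomplete hmaps hcontr
    (Metric.mem_closedBall_self hr.le) (edist_ne_top _ _)
  refine ⟨z, ?_, ?_⟩
  · rw [mem_closedBall_zero_iff, pi_norm_le_iff_of_nonneg hr.le] at hz
    exact hz
  · intro e
    have h4 := congrFun hfix e
    unfold step at h4
    linarith

end Pool.Agent.N461.Ball
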