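import Pool.Agent.N461.Ball.Checks
import Pool.Agent.N461.Ball.Newton

/-!
# MP_377e48_co: the exact configuration of 14 balls in R^4
-/

set_option autoImplicit false

namespace Pool.Agent.N461.Ball

open Finset

/-- real version of the approximate data -/
noncomputable def Pr (i : Fin 14) (k : Fin 5) : ℝ := (Pz i k : ℝ) / 10 ^ 12

noncomputable def Ar (i : Fin 14) (k : Fin 5) (l : Fin 46) : ℝ := (Az i k l : ℝ) / 10 ^ 4

noncomputable def ar (e : Fin 46) (k : Fin 5) : ℝ := (az e k : ℝ) / 10 ^ 12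

noncomputable def Br (e : Fin 46) (k : Fin 5) (l : Fin 46) : ℝ := (Bz e k l : ℝ) / 10 ^ 4

theorem exists_z : ∃ z : Fin 46 → ℝ, (∀ l, |z l| ≤ 1 / 10 ^ 10) ∧
    ∀ e, ∑ k, (sg k : ℝ) * (ar e k + ∑ l, Br e k l * z l) ^ 2 = 0 := by
  apply newton (fun k => (sg k : ℝ)) ar Br _ (1 / 10 ^ 10) 11 (by positivity) (by norm_num)
  · intro e
    have h := check_F e
    have h' : |∑ k : Fin 5, (sg k : ℝ) * (az e k : ℝ) ^ 2| ≤ 50000000000000 := by
      exact_mod_cast h
    have h2 : ∑ k : Fin 5, (sg k : ℝ) * ar e k ^ 2 =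
        (∑ k : Fin 5, (sg k : ℝ) * (az e k : ℝ) ^ 2) / 10 ^ 24 := by
      rw [Finset.sum_div]
      apply Finset.sum_congr rfl
      intro k _
      unfold ar
      field_simp
      
    rw [h2, abs_div, abs_of_pos (show (0:ℝ) < 10 ^ 24 by positivity), div_le_iff₀ (by positivity)]
    calc _ ≤ (50000000000000 : ℝ) := h'
      _ ≤ _ := by norm_num
  · intro e
    have h := check_K e
    have h' : ∑ l : Fin 46, |(if l = e then (10000000000000000 : ℝ) else 0) -
        2 * ∑ k : Fin 5, (sg k : ℝ) * (az e k : ℝ) * (Bz e k l : ℝ)| ≤ 2500000000000000 := by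
      have : ((∑ l : Fin 46, |(if l = e then (10000000000000000 : ℤ) else 0) -
        2 * ∑ k : Fin 5, sg k * az e k * Bz e k l| : ℤ) : ℝ) ≤ 2500000000000000 := by
        exact_mod_cast h
      refine le_trans (le_of_eq ?_) this
      push_cast
      rfl
    have h2 : ∀ l, |(if l = e then (1:ℝ) else 0) - 2 * ∑ k, (sg k : ℝ) * ar e k * Br e k l| =
        |(if l = e then (10000000000000000 : ℝ) else 0) -
        2 * ∑ k : Fin 5, (sg k : ℝ) * (az e k : ℝ) * (Bz e k l : ℝ)| / 10 ^ 16 := by
      intro l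
      have h10 : |(10:ℝ) ^ 16| = 10 ^ 16 := abs_of_pos (by positivity)
      rw [← h10, ← abs_div]
      congr 1
      rw [sub_div]
      congr 1
      · split_ifs <;> norm_num
      · rw [mul_div_assoc, Finset.sum_div]
        congr 1
        apply Finset.sum_congr rfl
        intro k _
        unfold ar Br
        field_simp
        
    simp_rw [h2]
    rw [← Finset.sum_div, div_le_iff₀ (by positivity)]
    calc _ ≤ (2500000000000000 : ℝ) := h'
      _ ≤ _ := by norm_num
  · intro e k
    have h := check_B e k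
    have h' : ∑ l : Fin 46, |(Bz e k l : ℝ)| ≤ 110000 := by exact_mod_cast h
    have h2 : ∀ l, |Br e k l| = |(Bz e k l : ℝ)| / 10 ^ 4 := by
      intro l
      unfold Br
      rw [abs_div, abs_of_pos (show (0:ℝ) < 10 ^ 4 by positivity)]
    simp_rw [h2]
    rw [← Finset.sum_div, div_le_iff₀ (by positivity)]
    calc _ ≤ (110000 : ℝ) := h'
      _ ≤ _ := by norm_num
  · norm_num
  · intro k
    unfold sg
    split_ifs <;> norm_num

/-- **The configuration.** -/
theorem exists_X : ∃ X : Fin 14 → Fin 5 → ℝ, (∀ i k, |X i k - Pr i k| ≤ 1 / 10 ^ 9) ∧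
    ∀ i j, adj i j → ∑ k : Fin 4, (X i k.castSucc - X j k.castSucc) ^ 2 = (X i 4 + X j 4) ^ 2 := by
  obtain ⟨z, hz, h⟩ := exists_z
  refine ⟨fun i k => Pr i k + ∑ l, Ar i k l * z l, ?_, ?_⟩
  · intro i k
    have h1 : |∑ l, Ar i k l * z l| ≤ 6 * (1 / 10 ^ 10) := by
      apply abs_dot_le _ _ _ _ _ (by positivity) hz
      have h2 := check_A i k
      have h' : ∑ l : Fin 46, |(Az i k l : ℝ)| ≤ 60000 := by exact_mod_cast h2
      have h3 : ∀ l, |Ar i k l| = |(Az i k l : ℝ)| / 10 ^ 4 := by
        intro l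
        unfold Ar
        rw [abs_div, abs_of_pos (show (0:ℝ) < 10 ^ 4 by positivity)]
      simp_rw [h3]
      rw [← Finset.sum_div, div_le_iff₀ (by positivity)]
      calc _ ≤ (60000 : ℝ) := h'
        _ ≤ _ := by norm_num
    have h4 : Pr i k + ∑ l, Ar i k l * z l - Pr i k = ∑ l, Ar i k l * z l := by ring
    rw [h4]
    exact h1.trans (by norm_num)
  · have key : ∀ e : Fin 46, ∑ k : Fin 4, ((Pr (ed e).1 k.castSucc + ∑ l, Ar (ed e).1 k.castSucc l * z l) -
        (Pr (ed e).2 k.castSucc + ∑ l, Ar (ed e).2 k.castSucc l * z l)) ^ 2 =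
        ((Pr (ed e).1 4 + ∑ l, Ar (ed e).1 4 l * z l) +
          (Pr (ed e).2 4 + ∑ l, Ar (ed e).2 4 l * z l)) ^ 2 := by
      intro e
      have he := h e
      have h5 : ∀ k, ar e k + ∑ l, Br e k l * z l =
          (Pr (ed e).1 k + ∑ l, Ar (ed e).1 k l * z l) -
            (sg k : ℝ) * (Pr (ed e).2 k + ∑ l, Ar (ed e).2 k l * z l) := by
        intro k
        have h6 : ∑ l, Br e k l * z l = ∑ l, Ar (ed e).1 k l * z l -
            (sg k : ℝ) * ∑ l, Ar (ed e).2 k l * z l := by
          rw [Finset.mul_sum, ← Finset.sum_sub_distrib]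
          apply Finset.sum_congr rfl
          intro l _
          unfold Br Bz Ar
          push_cast
          ring
        rw [h6]
        unfold ar az Pr
        push_cast
        ring
      simp_rw [h5] at he
      rw [Fin.sum_univ_castSucc] at he
      have h7 : ∀ k : Fin 4, (sg k.castSucc : ℤ) = 1 := by decide
      have h8 : sg (Fin.last 4) = -1 := by decide
      rw [h8] at he
      simp_rw [h7] at he
      push_cast at he
      simp only [one_mul, neg_mul, sub_neg_eq_add] at he
      linarith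
    intro i j hij
    obtain ⟨e, he | he⟩ := adj_ed i j hij
    · have := key e
      rw [he] at this
      exact this
    · have := key e
      rw [he] at this
      rw [add_comm (Pr i 4 + _), ← this]
      apply Finset.sum_congr rfl
      intro k _
      ring

end Pool.Agent.N461.Ball
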