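import Pool.Agent.N461.Ball.Config

/-!
# MP_377e48_co: the tangent graph of the configuration and its stresses
-/

set_option autoImplicit false

namespace Pool.Agent.N461.Ball

open Finset

theorem Pr_le (i : Fin 14) (k : Fin 5) : |Pr i k| ≤ 6 := by
  have h := check_bd i k
  have h' : |(Pz i k : ℝ)| ≤ 6000000000000 := by exact_mod_cast h
  unfold Pr
  rw [abs_div, abs_of_pos (show (0:ℝ) < 10 ^ 12 by positivity), div_le_iff₀ (by positivity)]
  calc _ ≤ (6000000000000 : ℝ) := h'
    _ ≤ _ := by norm_num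

theorem Pr_pos (i : Fin 14) : 1 / 5 ≤ Pr i 4 := by
  have h := check_pos i
  have h' : (200000000000 : ℝ) ≤ (Pz i 4 : ℝ) := by exact_mod_cast h
  unfold Pr
  rw [le_div_iff₀ (by positivity)]
  calc _ ≤ (200000000000 : ℝ) := by norm_num
    _ ≤ _ := h'

variable {X : Fin 14 → Fin 5 → ℝ} (hX : ∀ i k, |X i k - Pr i k| ≤ 1 / 10 ^ 9)

include hX

theorem X_pos (i : Fin 14) : 0 < X i 4 := by
  have h1 := Pr_pos i
  have h2 := abs_le.1 (hX i 4)
  have : (1 : ℝ) / 10 ^ 9 < 1 / 5 := by norm_num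
  linarith

omit hX in
theorem sq_diff (D D' : ℝ) (h : |D - D'| ≤ 2 / 10 ^ 9) (h' : |D'| ≤ 12) :
    |D ^ 2 - D' ^ 2| ≤ 1 / 10 ^ 7 := by
  have h1 : D ^ 2 - D' ^ 2 = (D - D') * (D - D' + 2 * D') := by ring
  rw [h1, abs_mul]
  have h2 : |D - D' + 2 * D'| ≤ 25 := by
    refine (abs_add_le _ _).trans ?_
    rw [abs_mul]
    have : |(2:ℝ)| = 2 := by norm_num
    rw [this]
    have : (2 : ℝ) / 10 ^ 9 ≤ 1 := by norm_num
    linarith
  calc |D - D'| * |D - D' + 2 * D'| ≤ (2 / 10 ^ 9) * 25 :=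
        mul_le_mul h h2 (abs_nonneg _) (by positivity)
    _ ≤ 1 / 10 ^ 7 := by norm_num

/-- Nonadjacent balls overlap. -/
theorem nonadj (i j : Fin 14) (hij : i ≠ j) (h : ¬ adj i j) :
    ∑ k : Fin 4, (X i k.castSucc - X j k.castSucc) ^ 2 < (X i 4 + X j 4) ^ 2 := by
  have h1 := check_N i j hij h
  have h2 : (5000000000000000000000 : ℝ) ≤ ((Pz i 4 : ℝ) + Pz j 4) ^ 2 -
      ∑ k : Fin 4, ((Pz i k.castSucc : ℝ) - Pz j k.castSucc) ^ 2 := by
    exact_mod_cast h1
  have h3 : (1 : ℝ) / 1000 ≤ (Pr i 4 + Pr j 4) ^ 2 -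
      ∑ k : Fin 4, (Pr i k.castSucc - Pr j k.castSucc) ^ 2 := by
    have : (Pr i 4 + Pr j 4) ^ 2 - ∑ k : Fin 4, (Pr i k.castSucc - Pr j k.castSucc) ^ 2 =
        (((Pz i 4 : ℝ) + Pz j 4) ^ 2 -
          ∑ k : Fin 4, ((Pz i k.castSucc : ℝ) - Pz j k.castSucc) ^ 2) / 10 ^ 24 := by
      rw [sub_div, Finset.sum_div]
      congr 1
      · unfold Pr
        field_simp
        
      · apply Finset.sum_congr rfl
        intro k _
        unfold Pr
        field_simp
        
    rw [this, le_div_iff₀ (by positivity)]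
    calc (1 : ℝ) / 1000 * 10 ^ 24 ≤ 5000000000000000000000 := by norm_num
      _ ≤ _ := h2
  have h4 : |(X i 4 + X j 4) ^ 2 - (Pr i 4 + Pr j 4) ^ 2| ≤ 1 / 10 ^ 7 := by
    apply sq_diff
    · have e1 := hX i 4
      have e2 := hX j 4
      have : X i 4 + X j 4 - (Pr i 4 + Pr j 4) = (X i 4 - Pr i 4) + (X j 4 - Pr j 4) := by ring
      rw [this]
      refine (abs_add_le _ _).trans ?_
      calc _ ≤ (1 : ℝ) / 10 ^ 9 + 1 / 10 ^ 9 := add_le_add e1 e2
        _ = 2 / 10 ^ 9 := by norm_num
    · refine (abs_add_le _ _).trans ?_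
      have e1 := Pr_le i 4
      have e2 := Pr_le j 4
      linarith
  have h5 : ∀ k : Fin 4, |(X i k.castSucc - X j k.castSucc) ^ 2 -
      (Pr i k.castSucc - Pr j k.castSucc) ^ 2| ≤ 1 / 10 ^ 7 := by
    intro k
    apply sq_diff
    · have e1 := hX i k.castSucc
      have e2 := hX j k.castSucc
      have : X i k.castSucc - X j k.castSucc - (Pr i k.castSucc - Pr j k.castSucc) =
        (X i k.castSucc - Pr i k.castSucc) - (X j k.castSucc - Pr j k.castSucc) := by ring
      rw [this]
      refine (abs_sub _ _).trans ?_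
      calc _ ≤ (1 : ℝ) / 10 ^ 9 + 1 / 10 ^ 9 := add_le_add e1 e2
        _ = 2 / 10 ^ 9 := by norm_num
    · refine (abs_sub _ _).trans ?_
      have e1 := Pr_le i k.castSucc
      have e2 := Pr_le j k.castSucc
      linarith
  have h6 : ∑ k : Fin 4, (X i k.castSucc - X j k.castSucc) ^ 2 ≤
      ∑ k : Fin 4, ((Pr i k.castSucc - Pr j k.castSucc) ^ 2 + 1 / 10 ^ 7) := by
    apply Finset.sum_le_sum
    intro k _
    have := (abs_le.1 (h5 k)).2
    linarith
  rw [Finset.sum_add_distrib] at h6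
  simp only [Finset.sum_const, Finset.card_univ, Fintype.card_fin, nsmul_eq_mul] at h6
  have h7 := (abs_le.1 h4).1
  have h8 : (4 : ℝ) * (1 / 10 ^ 7) + 1 / 10 ^ 7 < 1 / 1000 := by norm_num
  push_cast at h6
  linarith

/-- centre -/
noncomputable def cen (X : Fin 14 → Fin 5 → ℝ) (i : Fin 14) : EuclideanSpace ℝ (Fin 4) :=
  WithLp.toLp 2 (fun k => X i k.castSucc)

omit hX in
theorem dist_cen (X : Fin 14 → Fin 5 → ℝ) (i j : Fin 14) :
    dist (cen X i) (cen X j) = √(∑ k : Fin 4, (X i k.castSucc - X j k.castSucc) ^ 2) := by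
  rw [EuclideanSpace.dist_eq]
  congr 1
  apply Finset.sum_congr rfl
  intro k _
  rw [Real.dist_eq, sq_abs]
  rfl

variable (hadj : ∀ i j, adj i j →
  ∑ k : Fin 4, (X i k.castSucc - X j k.castSucc) ^ 2 = (X i 4 + X j 4) ^ 2)

include hadj

theorem dist_iff (i j : Fin 14) :
    dist (cen X i) (cen X j) = X i 4 + X j 4 ↔ adj i j := by
  have hi := X_pos hX i
  have hj := X_pos hX j
  constructor
  · intro h
    by_contra hn
    by_cases hij : i = j
    · subst hij
      rw [dist_self] at h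
      linarith
    · have h1 := nonadj hX i j hij hn
      rw [dist_cen] at h
      have h2 := Real.sq_sqrt (show 0 ≤ ∑ k : Fin 4, (X i k.castSucc - X j k.castSucc) ^ 2 from
        Finset.sum_nonneg (fun k _ => sq_nonneg _))
      rw [h] at h2
      linarith
  · intro h
    rw [dist_cen, hadj i j h, Real.sqrt_sq (by linarith)]

theorem dist_le (i j : Fin 14) : dist (cen X i) (cen X j) ≤ X i 4 + X j 4 := by
  have hi := X_pos hX i
  have hj := X_pos hX j
  by_cases h : adj i j
  · exact ((dist_iff hX hadj i j).2 h).le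
  · by_cases hij : i = j
    · subst hij
      rw [dist_self]
      linarith
    · rw [dist_cen]
      apply Real.sqrt_le_iff.2
      exact ⟨by linarith, (nonadj hX i j hij h).le⟩

omit hadj in
theorem cen_inj (i j : Fin 14) (h : cen X i = cen X j) : i = j := by
  by_contra hij
  obtain ⟨k, hk⟩ := check_inj i j hij
  have h1 : X i k.castSucc = X j k.castSucc := congrArg (fun v : EuclideanSpace ℝ (Fin 4) => v k) h
  have h2 : (1000000000 : ℝ) ≤ |(Pz i k.castSucc : ℝ) - Pz j k.castSucc| := by exact_mod_cast hk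
  have h3 : |Pr i k.castSucc - Pr j k.castSucc| ≤ 2 / 10 ^ 9 := by
    have e1 := hX i k.castSucc
    have e2 := hX j k.castSucc
    have : Pr i k.castSucc - Pr j k.castSucc =
      (X j k.castSucc - Pr j k.castSucc) - (X i k.castSucc - Pr i k.castSucc) := by
      rw [h1]
      ring
    rw [this]
    refine (abs_sub _ _).trans ?_
    calc _ ≤ (1 : ℝ) / 10 ^ 9 + 1 / 10 ^ 9 := add_le_add e2 e1
      _ = 2 / 10 ^ 9 := by norm_num
  have h4 : |Pr i k.castSucc - Pr j k.castSucc| =
      |(Pz i k.castSucc : ℝ) - Pz j k.castSucc| / 10 ^ 12 := by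
    unfold Pr
    rw [← sub_div, abs_div, abs_of_pos (show (0:ℝ) < 10 ^ 12 by positivity)]
  rw [h4, div_le_iff₀ (by positivity)] at h3
  have h5 : (2 : ℝ) / 10 ^ 9 * 10 ^ 12 < 1000000000 := by norm_num
  linarith

omit hX hadj in
theorem sum_adj (g : Fin 14 → Fin 14 → ℝ) :
    ∑ j, ∑ i, (if adj i j then g i j else 0) =
      ∑ e, (g (ed e).1 (ed e).2 + g (ed e).2 (ed e).1) := by
  rw [Finset.sum_comm, ← Finset.sum_product', Finset.univ_product_univ, ← Finset.sum_filter]
  have h1 := adj_filter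
  have h2 : ∑ a ∈ (Finset.univ : Finset (Fin 14 × Fin 14)).filter (fun p => adj p.1 p.2), g a.1 a.2 =
      ∑ e, (g (ed e).1 (ed e).2 + g (ed e).2 (ed e).1) := by
    rw [h1, Finset.sum_union, Finset.sum_image, Finset.sum_image, Finset.sum_add_distrib]
    · intro e _ f _ hef
      apply ed_inj
      simp only [Prod.mk.injEq] at hef
      exact Prod.ext hef.2 hef.1
    · intro e _ f _ hef
      exact ed_inj e f hef
    · rw [Finset.disjoint_left]
      intro p hp hp'
      rw [Finset.mem_image] at hp hp'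
      obtain ⟨e, -, he⟩ := hp
      obtain ⟨f, -, hf⟩ := hp'
      have e1 := ed_lt e
      have e2 := ed_lt f
      rw [he] at e1
      rw [← hf] at e1
      exact absurd e1 (not_lt.2 e2.le)
  exact h2

/-- real version of the left inverse -/
noncomputable def Lr (e : Fin 46) (j : Fin 14) (k : Fin 4) : ℝ := (Lz e j k : ℝ)

/-- the product of the left inverse and of the stress matrix -/
noncomputable def Mr (X : Fin 14 → Fin 5 → ℝ) (e f : Fin 46) : ℝ :=
  ∑ k : Fin 4, (Lr e (ed f).2 k - Lr e (ed f).1 k) *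
    (X (ed f).1 k.castSucc - X (ed f).2 k.castSucc)

omit hadj in
theorem Mr_close (e f : Fin 46) : |Mr X e f - (Mz e f : ℝ) / 10 ^ 12| ≤ 1 / 1000 := by
  have h1 : (Mz e f : ℝ) / 10 ^ 12 = ∑ k : Fin 4, (Lr e (ed f).2 k - Lr e (ed f).1 k) *
      (Pr (ed f).1 k.castSucc - Pr (ed f).2 k.castSucc) := by
    unfold Mz Lr Pr
    push_cast
    rw [Finset.sum_div]
    apply Finset.sum_congr rfl
    intro k _
    ring
  rw [h1]
  unfold Mr
  rw [← Finset.sum_sub_distrib]
  calc _ ≤ ∑ k : Fin 4, |(Lr e (ed f).2 k - Lr e (ed f).1 k) *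
        (X (ed f).1 k.castSucc - X (ed f).2 k.castSucc) -
        (Lr e (ed f).2 k - Lr e (ed f).1 k) *
        (Pr (ed f).1 k.castSucc - Pr (ed f).2 k.castSucc)| := Finset.abs_sum_le_sum_abs _ _
    _ ≤ ∑ k : Fin 4, (40000 * (2 / 10 ^ 9) : ℝ) := by
        apply Finset.sum_le_sum
        intro k _
        rw [← mul_sub, abs_mul]
        apply mul_le_mul _ _ (abs_nonneg _) (by positivity)
        · refine (abs_sub _ _).trans ?_
          have e1 := check_L e (ed f).2 k
          have e2 := check_L e (ed f).1 k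
          have e1' : |(Lz e (ed f).2 k : ℝ)| ≤ 20000 := by exact_mod_cast e1
          have e2' : |(Lz e (ed f).1 k : ℝ)| ≤ 20000 := by exact_mod_cast e2
          unfold Lr
          linarith
        · have e1 := hX (ed f).1 k.castSucc
          have e2 := hX (ed f).2 k.castSucc
          have : X (ed f).1 k.castSucc - X (ed f).2 k.castSucc -
              (Pr (ed f).1 k.castSucc - Pr (ed f).2 k.castSucc) =
            (X (ed f).1 k.castSucc - Pr (ed f).1 k.castSucc) -
              (X (ed f).2 k.castSucc - Pr (ed f).2 k.castSucc) := by ring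
          rw [this]
          refine (abs_sub _ _).trans ?_
          calc _ ≤ (1 : ℝ) / 10 ^ 9 + 1 / 10 ^ 9 := add_le_add e1 e2
            _ = 2 / 10 ^ 9 := by norm_num
    _ ≤ 1 / 1000 := by
        simp only [Finset.sum_const, Finset.card_univ, Fintype.card_fin, nsmul_eq_mul]
        norm_num

omit hadj in
theorem Mr_dom (e : Fin 46) : ∑ f ∈ univ.erase e, |Mr X e f| < Mr X e e := by
  obtain ⟨h1, h2⟩ := check_M e
  have h1' : 2 * (∑ f : Fin 46, if f = e then (0:ℝ) else |(Mz e f : ℝ)|) < (Mz e e : ℝ) := by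
    exact_mod_cast h1
  have h2' : (900000000000000 : ℝ) ≤ (Mz e e : ℝ) := by exact_mod_cast h2
  have h3 : ∑ f ∈ univ.erase e, |Mr X e f| ≤
      ∑ f ∈ univ.erase e, (|(Mz e f : ℝ)| / 10 ^ 12 + 1 / 1000) := by
    apply Finset.sum_le_sum
    intro f _
    have h4 := Mr_close hX e f
    have h5 : |Mr X e f| ≤ |Mr X e f - (Mz e f : ℝ) / 10 ^ 12| + |(Mz e f : ℝ) / 10 ^ 12| := by
      have := abs_add_le (Mr X e f - (Mz e f : ℝ) / 10 ^ 12) ((Mz e f : ℝ) / 10 ^ 12)
      simpa using this
    have h6 : |(Mz e f : ℝ) / 10 ^ 12| = |(Mz e f : ℝ)| / 10 ^ 12 := by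
      rw [abs_div, abs_of_pos (show (0:ℝ) < 10 ^ 12 by positivity)]
    rw [h6] at h5
    linarith
  rw [Finset.sum_add_distrib, ← Finset.sum_div] at h3
  have h7 : ∑ f ∈ univ.erase e, |(Mz e f : ℝ)| =
      ∑ f : Fin 46, if f = e then (0:ℝ) else |(Mz e f : ℝ)| := by
    rw [← Finset.sum_erase_add _ _ (Finset.mem_univ e)]
    simp only [if_true, add_zero]
    apply Finset.sum_congr rfl
    intro f hf
    rw [if_neg (Finset.ne_of_mem_erase hf)]
  rw [h7] at h3
  have h8 : ∑ f ∈ (univ : Finset (Fin 46)).erase e, (1 / 1000 : ℝ) ≤ 45 / 1000 := by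
    simp only [Finset.sum_const, Finset.card_erase_of_mem (Finset.mem_univ e), Finset.card_univ,
      Fintype.card_fin, nsmul_eq_mul]
    norm_num
  have h9 := (abs_le.1 (Mr_close hX e e)).1
  have h10 : (∑ f : Fin 46, if f = e then (0:ℝ) else |(Mz e f : ℝ)|) / 10 ^ 12 <
      (Mz e e : ℝ) / 10 ^ 12 / 2 := by
    rw [div_div, mul_comm ((10:ℝ) ^ 12) 2, ← div_div]
    apply div_lt_div_of_pos_right _ (by positivity)
    linarith
  have h11 : (900 : ℝ) ≤ (Mz e e : ℝ) / 10 ^ 12 := by
    rw [le_div_iff₀ (by positivity)]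
    calc (900 : ℝ) * 10 ^ 12 = 900000000000000 := by norm_num
      _ ≤ _ := h2'
  linarith

/-- There is no nonzero stress. -/
theorem no_stress (w : Fin 14 → Fin 14 → ℝ) (hw : ∀ i j, w i j = w j i)
    (hs : ∀ j, ∑ i ∈ Finset.univ.filter (fun i => dist (cen X i) (cen X j) = X i 4 + X j 4),
      w i j • (cen X i - cen X j) = 0) (i j : Fin 14) (hij : adj i j) : w i j = 0 := by
  classical
  -- the scalar equations
  have h1 : ∀ j, ∀ k : Fin 4, ∑ i, (if adj i j then w i j * (X i k.castSucc - X j k.castSucc) else 0)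
      = 0 := by
    intro j k
    have h2 := congrArg (fun v : EuclideanSpace ℝ (Fin 4) => v k) (hs j)
    simp only at h2
    rw [← Finset.sum_filter]
    have h3 : Finset.univ.filter (fun i => dist (cen X i) (cen X j) = X i 4 + X j 4) =
        Finset.univ.filter (fun i => adj i j) := by
      apply Finset.filter_congr
      intro i _
      exact dist_iff hX hadj i j
    rw [h3] at h2
    rw [WithLp.ofLp_sum, Finset.sum_apply] at h2
    exact h2
  have h4 : ∀ e, ∑ f, w (ed f).1 (ed f).2 * Mr X e f = 0 := by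
    intro e
    have h5 : ∑ j, ∑ i, (if adj i j then
        w i j * ∑ k, Lr e j k * (X i k.castSucc - X j k.castSucc) else 0) = 0 := by
      apply Finset.sum_eq_zero
      intro j _
      have h6 : ∀ i, (if adj i j then
          w i j * ∑ k, Lr e j k * (X i k.castSucc - X j k.castSucc) else 0) =
          ∑ k, Lr e j k * (if adj i j then w i j * (X i k.castSucc - X j k.castSucc) else 0) := by
        intro i
        split_ifs
        · rw [Finset.mul_sum]
          apply Finset.sum_congr rfl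
          intro k _
          ring
        · simp
      simp_rw [h6]
      rw [Finset.sum_comm]
      apply Finset.sum_eq_zero
      intro k _
      rw [← Finset.mul_sum, h1, mul_zero]
    rw [sum_adj] at h5
    rw [← h5]
    apply Finset.sum_congr rfl
    intro f _
    rw [hw (ed f).2 (ed f).1, ← mul_add]
    congr 1
    unfold Mr
    rw [← Finset.sum_add_distrib]
    apply Finset.sum_congr rfl
    intro k _
    ring
  have h7 : ∀ f, w (ed f).1 (ed f).2 = 0 := by
    obtain ⟨e, -, he⟩ := Finset.exists_max_image (Finset.univ : Finset (Fin 46))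
      (fun f => |w (ed f).1 (ed f).2|) ⟨0, Finset.mem_univ 0⟩
    by_contra hne
    push Not at hne
    obtain ⟨f0, hf0⟩ := hne
    have hpos : 0 < |w (ed e).1 (ed e).2| :=
      lt_of_lt_of_le (abs_pos.2 hf0) (he f0 (Finset.mem_univ _))
    have h8 := h4 e
    rw [← Finset.add_sum_erase _ _ (Finset.mem_univ e)] at h8
    have h9 : |w (ed e).1 (ed e).2 * Mr X e e| ≤
        ∑ f ∈ univ.erase e, |w (ed e).1 (ed e).2| * |Mr X e f| := by
      have : w (ed e).1 (ed e).2 * Mr X e e =
          - ∑ f ∈ univ.erase e, w (ed f).1 (ed f).2 * Mr X e f := by linarith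
      rw [this, abs_neg]
      refine (Finset.abs_sum_le_sum_abs _ _).trans ?_
      apply Finset.sum_le_sum
      intro f _
      rw [abs_mul]
      exact mul_le_mul_of_nonneg_right (he f (Finset.mem_univ _)) (abs_nonneg _)
    rw [← Finset.mul_sum, abs_mul] at h9
    have h10 := Mr_dom hX e
    have h11 := le_abs_self (Mr X e e)
    have h12 : |w (ed e).1 (ed e).2| * ∑ f ∈ univ.erase e, |Mr X e f| <
        |w (ed e).1 (ed e).2| * |Mr X e e| :=
      mul_lt_mul_of_pos_left (lt_of_lt_of_le h10 h11) hpos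
    linarith
  obtain ⟨f, hf | hf⟩ := adj_ed i j hij
  · have := h7 f
    rw [hf] at this
    exact this
  · have := h7 f
    rw [hf] at this
    rw [hw i j]
    exact this

end Pool.Agent.N461.Ball
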